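import Mathlib
import Pool.Agent.R145.Peel.Fin

/-!
MP_71cb23_co, Q1: disproof. In dimension `d ≥ 3` the layer number of an evenly distributed set
is `O(|X|^(1/2 + 1/d^2))`, which is of smaller order than `|X|^((d+1)/(2d))`.
-/

namespace Pool.Agent.Results.MP_71cb23_co.LayerNumberBound

open Pool.Agent.R145.Peel Filter

/-- The class given by `P` contains arbitrarily large sets. -/
def Admissible (P : ∀ d : ℕ, ℝ → Finset (E d) → Prop) (α : ℝ) (d : ℕ) : Prop :=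
  ∀ k : ℕ, ∃ X : Finset (E d), k ≤ X.card ∧ P d α X

/-- The exponent `(d+1)/(2d)` is attained in the class given by `P`. -/
def Attained (P : ∀ d : ℕ, ℝ → Finset (E d) → Prop) (α : ℝ) (d : ℕ) : Prop :=
  ∃ c : ℝ, 0 < c ∧ ∃ Y : ℕ → Finset (E d), (∀ m, P d α (Y m)) ∧
    Tendsto (fun m => (Y m).card) atTop atTop ∧
    ∀ m, c * ((Y m).card : ℝ) ^ (((d : ℝ) + 1) / (2 * d)) ≤ (layers (Y m) : ℝ)

/-- Q1 for the class given by `P`. -/
def Q1 (P : ∀ d : ℕ, ℝ → Finset (E d) → Prop) : Prop :=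
  ∀ α : ℝ, 1 < α → ∀ d : ℕ, 3 ≤ d → Admissible P α d → Attained P α d

theorem bound (d : ℕ) (hd : 2 ≤ d) (α : ℝ) (hα : 0 < α) : ∃ C : ℝ, 0 < C ∧
    ∀ X : Finset (E d), EvenlyOpen α X →
      (layers X : ℝ) ≤ C * (X.card : ℝ) ^ (1 / 2 + 1 / (d : ℝ) ^ 2) := by
  obtain ⟨p, rfl⟩ : ∃ p, d = p + 2 := ⟨d - 2, by omega⟩
  have := upper_bound p α hα
  push_cast
  exact this

theorem small (d : ℕ) (hd : 3 ≤ d) (α : ℝ) (hα : 0 < α) (η : ℝ) (hη : 0 < η) :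
    ∃ N : ℕ, ∀ X : Finset (E d), EvenlyOpen α X → N ≤ X.card →
      (layers X : ℝ) ≤ η * (X.card : ℝ) ^ (((d : ℝ) + 1) / (2 * d)) := by
  obtain ⟨C, hC, h⟩ := bound d (by omega) α hα
  have hd' : (3 : ℝ) ≤ d := by exact_mod_cast hd
  have hgap : 0 < ((d : ℝ) - 2) / (2 * d ^ 2) := by
    apply div_pos <;> nlinarith
  have ht := (tendsto_rpow_atTop hgap).comp tendsto_natCast_atTop_atTop
  obtain ⟨N, hN⟩ := (ht.eventually_ge_atTop (C / η)).exists_forall_of_atTop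
  refine ⟨N + 1, fun X hX hcard => (h X hX).trans ?_⟩
  have h1 := hN X.card (by omega)
  simp only [Function.comp] at h1
  have hpos : (0 : ℝ) < X.card := by
    have : 0 < X.card := by omega
    exact_mod_cast this
  have h2 : ((d : ℝ) + 1) / (2 * d) = (1 / 2 + 1 / (d : ℝ) ^ 2) + ((d : ℝ) - 2) / (2 * d ^ 2) := by
    field_simp
    ring
  rw [h2, Real.rpow_add hpos (1 / 2 + 1 / (d : ℝ) ^ 2)]
  rw [div_le_iff₀ hη] at h1
  have h3 : 0 < (X.card : ℝ) ^ (1 / 2 + 1 / (d : ℝ) ^ 2) := Real.rpow_pos_of_pos hpos _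
  have h4 := mul_le_mul_of_nonneg_right h1 h3.le
  linarith

theorem not_attained (d : ℕ) (hd : 3 ≤ d) (α : ℝ) (hα : 0 < α) :
    ¬ Attained (fun _ => EvenlyOpen) α d := by
  rintro ⟨c, hc, Y, hY, ht, hL⟩
  obtain ⟨N, hN⟩ := small d hd α hα (c / 2) (by linarith)
  obtain ⟨m, hm⟩ := (ht.eventually_ge_atTop (N + 1)).exists
  have h1 := hN (Y m) (hY m) (by omega)
  have h2 := hL m
  have hpos : (0 : ℝ) < (Y m).card := by
    have : 0 < (Y m).card := by omega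
    exact_mod_cast this
  have h3 : 0 < ((Y m).card : ℝ) ^ (((d : ℝ) + 1) / (2 * d)) := Real.rpow_pos_of_pos hpos _
  nlinarith

theorem not_attained_closed (d : ℕ) (hd : 3 ≤ d) (α : ℝ) (hα : 0 < α) :
    ¬ Attained (fun _ => EvenlyClosed) α d := by
  rintro ⟨c, hc, Y, hY, ht, hL⟩
  exact not_attained d hd α hα ⟨c, hc, Y, fun m => (hY m).toOpen hα.le, ht, hL⟩

/-- Disproof of Q1, for closed and for open balls in the counting condition. -/
theorem result :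
    -- the upper bound
    (∀ d : ℕ, 2 ≤ d → ∀ α : ℝ, 0 < α → ∃ C : ℝ, 0 < C ∧ ∀ X : Finset (E d), EvenlyOpen α X →
      (layers X : ℝ) ≤ C * (X.card : ℝ) ^ (1 / 2 + 1 / (d : ℝ) ^ 2)) ∧
    -- it is of smaller order than `|X|^((d+1)/(2d))`
    (∀ d : ℕ, 3 ≤ d → ∀ α : ℝ, 0 < α → ∀ η : ℝ, 0 < η → ∃ N : ℕ, ∀ X : Finset (E d),
      EvenlyOpen α X → N ≤ X.card →
      (layers X : ℝ) ≤ η * (X.card : ℝ) ^ (((d : ℝ) + 1) / (2 * d))) ∧
    -- closed balls give the smaller class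
    (∀ d : ℕ, ∀ α : ℝ, 0 < α → ∀ X : Finset (E d), EvenlyClosed α X → EvenlyOpen α X) ∧
    -- admissible pairs exist in every dimension
    (∀ d : ℕ, 3 ≤ d → ∃ α : ℝ, 1 < α ∧ Admissible (fun _ => EvenlyClosed) α d ∧
      Admissible (fun _ => EvenlyOpen) α d) ∧
    -- the exponent is attained for no pair
    (∀ d : ℕ, 3 ≤ d → ∀ α : ℝ, 0 < α → ¬ Attained (fun _ => EvenlyClosed) α d ∧
      ¬ Attained (fun _ => EvenlyOpen) α d) ∧
    -- Q1 is false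
    ¬ Q1 (fun _ => EvenlyClosed) ∧ ¬ Q1 (fun _ => EvenlyOpen) := by
  have hadm : ∀ d : ℕ, 3 ≤ d → ∃ α : ℝ, 1 < α ∧ Admissible (fun _ => EvenlyClosed) α d ∧
      Admissible (fun _ => EvenlyOpen) α d := by
    intro d hd
    obtain ⟨α, hα, h⟩ := exists_evenly d (by omega)
    refine ⟨α, hα, h, fun k => ?_⟩
    obtain ⟨X, hk, hX⟩ := h k
    exact ⟨X, hk, hX.toOpen (by linarith)⟩
  refine ⟨bound, small, fun d α hα X h => h.toOpen hα.le, hadm,
    fun d hd α hα => ⟨not_attained_closed d hd α hα, not_attained d hd α hα⟩, ?_, ?_⟩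
  · intro h
    obtain ⟨α, hα, h1, _⟩ := hadm 3 le_rfl
    exact not_attained_closed 3 le_rfl α (by linarith) (h α hα 3 le_rfl h1)
  · intro h
    obtain ⟨α, hα, _, h1⟩ := hadm 3 le_rfl
    exact not_attained 3 le_rfl α (by linarith) (h α hα 3 le_rfl h1)

end Pool.Agent.Results.MP_71cb23_co.LayerNumberBound
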